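import Pool.Agent.Helper65.PODefs
import Pool.Agent.Helper65.POProof

/-!
# The polarized partition relation for `ω₂ × ω₃` with entries `ℵ₂, ℵ₂; ℵ₂, ℵ₀`
-/

set_option autoImplicit false

open Cardinal Order Set

universe u

namespace Pool.Agent.Results.MP_5cad05_lc.PolarizedOmega2Omega3

open Pool.Agent.Helper65.PODefs

/-- **The relation of Erdős, Hajnal and Rado holds under GCH.**  If `2 ^ ℵ₀ = ℵ₁` and
`2 ^ ℵ₁ = ℵ₂`, then `(ℵ₂, ℵ₃) → (ℵ₂ ℵ₂; ℵ₂ ℵ₀)^{1,1}`. -/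
theorem result (ch : (2 : Cardinal.{u}) ^ (ℵ₀ : Cardinal.{u}) = ℵ₁)
    (ch₁ : (2 : Cardinal.{u}) ^ (ℵ₁ : Cardinal.{u}) = ℵ_ 2) :
    PolarizedArrow.{u} (ℵ_ 2) (ℵ_ 3) (ℵ_ 2) (ℵ_ 2) (ℵ_ 2) ℵ₀ :=
  Pool.Agent.Helper65.POProof.main_result ch ch₁

end Pool.Agent.Results.MP_5cad05_lc.PolarizedOmega2Omega3
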